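import Pool.Agent.Y32.AS.Defs

/-!
# Finite check for the morphism
-/

set_option autoImplicit false

namespace Pool.Agent.Y151.AS

open Pool.Agent.Y32.AS (ASF)

/-- The first row of `85` times the inverse of the incidence matrix of the morphism. -/
def R : List Int := [20, 27, -12, 11, -20, 7, -22, 6]

/-- `85` times the inverse matrix. -/
def rho (c b : Fin 8) : Int := R.getD ((b.val + 8 - c.val) % 8) 0

/-- The values of prefixes of the images of letters. -/
def u (c a : Fin 8) (j : ℕ) : Int := (((Pool.Agent.Y32.AS.h a).take j).map (rho c)).sum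

/-- The values `u 0 a j` modulo `85`. -/
def ent : List (Fin 8 × ℕ × ℕ) :=
  [(0, 0, 0), (0, 1, 20), (0, 2, 47), (0, 3, 58), (0, 4, 65), (1, 0, 0), (1, 1, 27), (1, 2,
   15), (1, 3, 80), (1, 4, 58), (2, 0, 0), (2, 1, 73), (2, 2, 84), (2, 3, 6), (2, 4, 12), (3,
   0, 0), (3, 1, 11), (3, 2, 76), (3, 3, 54), (3, 4, 74), (4, 0, 0), (4, 1, 65), (4, 2, 72),
   (4, 3, 78), (4, 4, 20), (5, 0, 0), (5, 1, 7), (5, 2, 70), (5, 3, 5), (5, 4, 78), (6, 0,
   0), (6, 1, 63), (6, 2, 69), (6, 3, 11), (6, 4, 22), (7, 0, 0), (7, 1, 6), (7, 2, 26), (7,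
   3, 14), (7, 4, 79)]

theorem ent_mem : ∀ a : Fin 8, ∀ j : Fin 5, (a, j.val, (u 0 a j.val % 85).toNat) ∈ ent := by
  decide +kernel

/-- The statement for one triple. -/
def St (a0 a1 a2 : Fin 8) (j0 j1 j2 : ℕ) : Prop :=
  (∀ c : Fin 8, (85 : Int) ∣ u c a0 j0 + u c a2 j2 - 2 * u c a1 j1) →
    ∃ d0 d1 d2 : Fin 2, (j0 = 0 → d0 = 0) ∧ (j1 = 0 → d1 = 0) ∧ (j2 = 0 → d2 = 0) ∧
      ∀ c : Fin 8, u c a0 j0 + u c a2 j2 - 2 * u c a1 j1 =
        85 * ((if c = a0 then (d0.val : Int) else 0) + (if c = a2 then (d2.val : Int) else 0) -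
          2 * (if c = a1 then (d1.val : Int) else 0))

instance (a0 a1 a2 : Fin 8) (j0 j1 j2 : ℕ) : Decidable (St a0 a1 a2 j0 j1 j2) := by
  unfold St
  infer_instance

/-- The check for one triple. -/
def chk (x0 x1 x2 : Fin 8 × ℕ × ℕ) : Bool :=
  bif Nat.beq ((x0.2.2 + x2.2.2) % 85) ((2 * x1.2.2) % 85) then
    decide (St x0.1 x1.1 x2.1 x0.2.1 x1.2.1 x2.2.1) else true

theorem all_chk : (ent.all fun x0 => ent.all fun x1 => ent.all fun x2 => chk x0 x1 x2) = true := by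
  decide +kernel

/-- The finite check. -/
theorem t_CHK : ∀ a0 a1 a2 : Fin 8, ∀ j0 < 5, ∀ j1 < 5, ∀ j2 < 5,
    (∀ c : Fin 8, (85 : Int) ∣ u c a0 j0 + u c a2 j2 - 2 * u c a1 j1) →
    ∃ d0 d1 d2 : ℕ, d0 ≤ 1 ∧ d1 ≤ 1 ∧ d2 ≤ 1 ∧
      (j0 = 0 → d0 = 0) ∧ (j1 = 0 → d1 = 0) ∧ (j2 = 0 → d2 = 0) ∧
      ∀ c, u c a0 j0 + u c a2 j2 - 2 * u c a1 j1 =
        85 * ((if c = a0 then (d0 : Int) else 0) + (if c = a2 then (d2 : Int) else 0) -
          2 * (if c = a1 then (d1 : Int) else 0)) := by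
  intro a0 a1 a2 j0 h0 j1 h1 j2 h2 hd
  have e0 := ent_mem a0 ⟨j0, h0⟩
  have e1 := ent_mem a1 ⟨j1, h1⟩
  have e2 := ent_mem a2 ⟨j2, h2⟩
  simp only at e0 e1 e2
  have hc := List.all_eq_true.1 (List.all_eq_true.1 (List.all_eq_true.1 all_chk _ e0) _ e1) _ e2
  have hn : Nat.beq (((u 0 a0 j0 % 85).toNat + (u 0 a2 j2 % 85).toNat) % 85)
      ((2 * (u 0 a1 j1 % 85).toNat) % 85) = true := by
    rw [Nat.beq_eq]
    have h := hd 0
    omega
  unfold chk at hc
  simp only at hc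
  rw [hn, cond_true, decide_eq_true_eq] at hc
  obtain ⟨d0, d1, d2, k0, k1, k2, hk⟩ := hc hd
  refine ⟨d0.val, d1.val, d2.val, by omega, by omega, by omega, fun h => ?_, fun h => ?_,
    fun h => ?_, hk⟩
  · rw [k0 h]
    rfl
  · rw [k1 h]
    rfl
  · rw [k2 h]
    rfl

/-- The values of the images of letters. -/
theorem t_UH : ∀ c a : Fin 8, u c a 5 = if c = a then 85 else 0 := by
  decide +kernel

/-- Abelian-square-freeness from a finite check. -/
theorem asf_of_check {α : Type} (w : List α)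
    (hw : ∀ i ≤ w.length, ∀ l ≤ w.length, 1 ≤ l → i + 2 * l ≤ w.length →
      ¬ List.Perm ((w.drop i).take l) ((w.drop (i + l)).take l)) : ASF w := by
  intro p x y v he hx hp
  have hl : x.length = y.length := hp.length_eq
  have hx1 : 1 ≤ x.length := by
    rw [Nat.one_le_iff_ne_zero]
    intro h
    exact hx (List.length_eq_zero_iff.1 h)
  have hlen : w.length = p.length + x.length + y.length + v.length := by
    rw [he]
    simp only [List.length_append]
  refine hw p.length (by omega) x.length (by omega) hx1 (by omega) ?_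
  have e1 : (w.drop p.length).take x.length = x := by
    rw [he, List.append_assoc, List.append_assoc, List.drop_left, List.take_left]
  have e2 : (w.drop (p.length + x.length)).take x.length = y := by
    rw [he, ← List.length_append, List.append_assoc (p ++ x), List.drop_left,
      hl, List.take_left]
  rw [e1, e2]
  exact hp

theorem ch2 : ∀ a b : Fin 8, a ≠ b → ∀ i : Fin 11, ∀ l : Fin 6, 1 ≤ l.val → i.val + 2 * l.val ≤ 10 →
    ¬ List.Perm (((Pool.Agent.Y32.AS.h a ++ Pool.Agent.Y32.AS.h b).drop i.val).take l.val)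
      (((Pool.Agent.Y32.AS.h a ++ Pool.Agent.Y32.AS.h b).drop (i.val + l.val)).take l.val) := by
  decide +kernel

/-- Images of two different letters. -/
theorem t_CH2 : ∀ a b : Fin 8, a ≠ b → ASF (Pool.Agent.Y32.AS.h a ++ Pool.Agent.Y32.AS.h b) := by
  intro a b hab
  have hlen : (Pool.Agent.Y32.AS.h a ++ Pool.Agent.Y32.AS.h b).length = 10 := rfl
  refine asf_of_check _ ?_
  rw [hlen]
  intro i hi l _ hl hil
  exact ch2 a b hab ⟨i, by omega⟩ ⟨l, by omega⟩ hl hil

/-- Images of letters. -/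
theorem t_CH1 : ∀ a : Fin 8, ASF (Pool.Agent.Y32.AS.h a) := by
  intro a p x y v he hx
  have hab : ∀ a : Fin 8, a ≠ a + 1 := by
    decide
  refine t_CH2 a (a + 1) (hab a) p x y (v ++ Pool.Agent.Y32.AS.h (a + 1)) ?_ hx
  rw [he]
  simp only [List.append_assoc]

end Pool.Agent.Y151.AS
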